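import Pool.Agent.GT.StmtsB

/-!
# GT B_EXP: the end of the Cauchy-Schwarz argument
-/

namespace Pool.Agent.GT.H56

open Finset

/-- the indices of the factors `μ i` with `i ≠ a` -/
def S0 {K : ℕ} (a : Fin K) (B : Fin K → Bool → Bool) : Finset (Fin K × (Fin K → Bool)) :=
  univ.filter (fun p => p.1 ≠ a ∧ p.2 p.1 = false ∧ B p.1 (p.2 a) = true)

theorem mid {K : ℕ} {X : Type} (μ : Fin K → (Fin K → X) → ℝ) (a : Fin K)
    (P : Fin K → Bool → (Fin K → X) → ℝ) (B : Fin K → Bool → Bool)
    (hB : ∀ i b x, P i b x = if B i b = true then μ i x else 1)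
    (z : (Fin K → X) × (Fin K → X)) :
    (∏ j ∈ univ.erase a, ∏ ω ∈ cube (insert a ((univ.erase a).erase j)),
      P j (ω a) (mix ω z.1 z.2)) = ∏ p ∈ S0 a B, μ p.1 (mix p.2 z.1 z.2) := by
  classical
  have h1 : ∀ j ∈ univ.erase a, (∏ ω ∈ cube (insert a ((univ.erase a).erase j)),
      P j (ω a) (mix ω z.1 z.2)) =
      ∏ ω : Fin K → Bool, if ω j = false ∧ B j (ω a) = true then μ j (mix ω z.1 z.2) else 1 := by
    intro j hj
    have hja : j ≠ a := (Finset.mem_erase.1 hj).1
    have hc : cube (insert a ((univ.erase a).erase j)) = univ.filter (fun ω => ω j = false) := by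
      ext ω
      rw [mem_cube, Finset.mem_filter]
      constructor
      · intro h
        refine ⟨Finset.mem_univ _, ?_⟩
        by_contra hne
        have := h j (by simpa using hne)
        rw [Finset.mem_insert] at this
        rcases this with h' | h'
        · exact hja h'
        · exact (Finset.mem_erase.1 h').1 rfl
      · rintro ⟨-, h⟩ i hi
        rw [Finset.mem_insert, Finset.mem_erase, Finset.mem_erase]
        by_cases hia : i = a
        · exact Or.inl hia
        · refine Or.inr ⟨?_, hia, Finset.mem_univ _⟩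
          rintro rfl
          rw [h] at hi
          exact absurd hi (by simp)
    rw [hc, Finset.prod_filter]
    refine Finset.prod_congr rfl fun ω _ => ?_
    rw [hB]
    by_cases h : ω j = false <;> by_cases h' : B j (ω a) = true <;> simp [h, h']
  rw [Finset.prod_congr rfl h1]
  unfold S0
  rw [Finset.prod_filter, Fintype.prod_prod_type]
  rw [← Finset.prod_erase univ (a := a)]
  · refine Finset.prod_congr rfl fun j hj => ?_
    have hja : j ≠ a := (Finset.mem_erase.1 hj).1
    refine Finset.prod_congr rfl fun ω _ => ?_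
    simp [hja]
  · refine Finset.prod_eq_one fun ω _ => ?_
    simp

theorem exp_ : ExpStmt := by
  intro K X _ _ ε μ a p P hH hP
  classical
  have hε : 0 ≤ ε := le_trans (abs_nonneg _) (hH ∅ (by simp))
  let B : Fin K → Bool → Bool := fun i b => decide (P i b = μ i)
  have hB : ∀ i b x, P i b x = if B i b = true then μ i x else 1 := by
    intro i b x
    by_cases h : P i b = μ i
    · have : B i b = true := by simp [B, h]
      rw [this, h]
      simp
    · have h2 : P i b = fun _ => 1 := (hP i b).resolve_left h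
      have : B i b = false := by
        simp only [B, decide_eq_false_iff_not]
        exact h
      rw [this, h2]
      simp
  set C := cube (univ.erase a) with hC
  have hCa : ∀ ω ∈ C, ω a = false := by
    intro ω hω
    rw [hC, mem_cube] at hω
    by_contra hne
    exact (Finset.mem_erase.1 (hω a (by simpa using hne))).1 rfl
  let S : Finset (Fin K → Bool) → Finset (Fin K × (Fin K → Bool)) := fun T =>
    T.image (fun ω => (a, ω)) ∪ S0 a B
  have hS : ∀ T ∈ C.powerset, ∀ q ∈ S T, q.2 q.1 = false := by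
    intro T hT q hq
    rw [Finset.mem_powerset] at hT
    simp only [S, Finset.mem_union, Finset.mem_image] at hq
    rcases hq with ⟨ω, hω, rfl⟩ | hq
    · exact hCa ω (hT hω)
    · unfold S0 at hq
      exact (Finset.mem_filter.1 hq).2.2.1
  have hprod : ∀ (T : Finset (Fin K → Bool)) (z : (Fin K → X) × (Fin K → X)),
      ∏ q ∈ S T, μ q.1 (mix q.2 z.1 z.2) =
        (∏ ω ∈ T, μ a (mix ω z.1 z.2)) * ∏ q ∈ S0 a B, μ q.1 (mix q.2 z.1 z.2) := by
    intro T z
    rw [Finset.prod_union, Finset.prod_image]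
    · intro ω _ ω' _ h
      exact (Prod.ext_iff.1 h).2
    · rw [Finset.disjoint_left]
      intro q hq hq'
      rw [Finset.mem_image] at hq
      obtain ⟨ω, -, rfl⟩ := hq
      unfold S0 at hq'
      exact (Finset.mem_filter.1 hq').2.1 rfl
  have hEJ : EJ a (fun x => μ a x - 1) p P (univ.erase a) =
      ∑ T ∈ C.powerset, (-1) ^ (C \ T).card *
        av (fun z : (Fin K → X) × (Fin K → X) => ∏ q ∈ S T, μ q.1 (mix q.2 z.1 z.2)) := by
    unfold EJ
    rw [← hC]
    have h1 : (fun z : (Fin K → X) × (Fin K → X) =>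
        (∏ ω ∈ C, (μ a (mix ω z.1 z.2) - 1)) *
        (∏ j ∈ univ.erase a, ∏ ω ∈ cube (insert a ((univ.erase a).erase j)),
          P j (ω a) (mix ω z.1 z.2)) *
        (∏ j ∈ (univ.erase a) \ (univ.erase a), ∏ ω ∈ cube (insert a (univ.erase a)),
          p j (ω a) (mix ω z.1 z.2))) =
        fun z => ∑ T ∈ C.powerset, (-1) ^ (C \ T).card *
          ∏ q ∈ S T, μ q.1 (mix q.2 z.1 z.2) := by
      funext z
      rw [mid μ a P B hB z, Finset.sdiff_self, Finset.prod_empty, mul_one]
      have h2 : ∏ ω ∈ C, (μ a (mix ω z.1 z.2) - 1) =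
          ∑ T ∈ C.powerset, (∏ ω ∈ T, μ a (mix ω z.1 z.2)) * ∏ _ω ∈ C \ T, (-1 : ℝ) := by
        rw [← Finset.prod_add]
        rfl
      rw [h2, Finset.sum_mul]
      refine Finset.sum_congr rfl fun T _ => ?_
      rw [hprod, Finset.prod_const]
      ring
    rw [h1, av_sum]
    refine Finset.sum_congr rfl fun T _ => ?_
    rw [av_mul_left]
  have hzero : ∑ T ∈ C.powerset, ((-1 : ℝ)) ^ (C \ T).card = 0 := by
    have h2 : ∏ _ω ∈ C, ((1 : ℝ) + (-1)) =
        ∑ T ∈ C.powerset, (∏ _ω ∈ T, (1 : ℝ)) * ∏ _ω ∈ C \ T, (-1 : ℝ) := by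
      rw [← Finset.prod_add]
    have h3 : ∏ _ω ∈ C, ((1 : ℝ) + (-1)) = 0 := by
      have hne : (fun _ => false) ∈ C := by
        rw [hC, mem_cube]
        intro i hi
        simp at hi
      refine Finset.prod_eq_zero hne ?_
      norm_num
    rw [← h3, h2]
    refine Finset.sum_congr rfl fun T _ => ?_
    rw [Finset.prod_const_one, one_mul, Finset.prod_const]
  have hkey : EJ a (fun x => μ a x - 1) p P (univ.erase a) =
      ∑ T ∈ C.powerset, (-1) ^ (C \ T).card *
        (av (fun z : (Fin K → X) × (Fin K → X) => ∏ q ∈ S T, μ q.1 (mix q.2 z.1 z.2)) - 1) := by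
    rw [hEJ]
    simp only [mul_sub, mul_one, Finset.sum_sub_distrib]
    rw [hzero, sub_zero]
  rw [hkey]
  calc |∑ T ∈ C.powerset, (-1) ^ (C \ T).card *
        (av (fun z : (Fin K → X) × (Fin K → X) => ∏ q ∈ S T, μ q.1 (mix q.2 z.1 z.2)) - 1)|
      ≤ ∑ T ∈ C.powerset, |(-1) ^ (C \ T).card *
        (av (fun z : (Fin K → X) × (Fin K → X) => ∏ q ∈ S T, μ q.1 (mix q.2 z.1 z.2)) - 1)| :=
        Finset.abs_sum_le_sum_abs _ _
    _ ≤ ∑ _T ∈ C.powerset, ε := by
        refine Finset.sum_le_sum fun T hT => ?_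
        rw [abs_mul, abs_pow, abs_neg, abs_one, one_pow, one_mul]
        exact hH (S T) (hS T hT)
    _ = 2 ^ C.card * ε := by
        rw [Finset.sum_const, Finset.card_powerset, nsmul_eq_mul]
        push_cast
        ring
    _ ≤ 2 ^ (2 ^ K) * ε := by
        refine mul_le_mul_of_nonneg_right ?_ hε
        refine pow_le_pow_right₀ (by norm_num) ?_
        refine (Finset.card_le_univ C).trans ?_
        simp

end Pool.Agent.GT.H56
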