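import Pool.Agent.GT.StmtsF

/-!
# Squad GT, row F_BAS: first properties of the classes of points
-/

set_option autoImplicit false

namespace Pool.Agent.GT.F.H56

open Polynomial Pool.Agent.NJ

noncomputable section

open Classical in
/-- the number which represents the class -/
def wt {K : Type} [Field K] (W : WeierstrassCurve K) (e : Fin 3 → K) (i : Fin 3) :
    W.toAffine.Point → K
  | .zero => 1
  | .some x _ _ => if x = e i then (e i - e (i + 1)) * (e i - e (i + 2)) else x - e i

open Classical in
theorem wt_some {K : Type} [Field K] (W : WeierstrassCurve K) (e : Fin 3 → K) (i : Fin 3)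
    (x y : K) (h : W.toAffine.Nonsingular x y) : wt W e i (.some x y h) =
      if x = e i then (e i - e (i + 1)) * (e i - e (i + 2)) else x - e i := rfl

theorem dl_some {K : Type} [Field K] (W : WeierstrassCurve K) (e : Fin 3 → K) (i : Fin 3) (c : K)
    (x y : K) (h : W.toAffine.Nonsingular x y) : Dl W e i c (.some x y h) ↔
      (x ≠ e i → IsSquare (c * (x - e i))) ∧
      (x = e i → IsSquare (c * ((e i - e (i + 1)) * (e i - e (i + 2))))) := Iff.rfl

theorem dl_iff {K : Type} [Field K] (W : WeierstrassCurve K) (e : Fin 3 → K) (i : Fin 3) (c : K)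
    (P : W.toAffine.Point) : Dl W e i c P ↔ IsSquare (c * wt W e i P) := by
  rcases P with _ | ⟨x, y, h⟩
  · change IsSquare c ↔ IsSquare (c * 1)
    rw [mul_one]
  · rw [dl_some, wt_some]
    by_cases hx : x = e i
    · rw [if_pos hx]
      exact ⟨fun h => h.2 hx, fun h => ⟨fun h1 => absurd hx h1, fun _ => h⟩⟩
    · rw [if_neg hx]
      exact ⟨fun h => h.1 hx, fun h => ⟨fun _ => h, fun h1 => absurd h1 hx⟩⟩

theorem wt_ne {K : Type} [Field K] (W : WeierstrassCurve K) (e : Fin 3 → K)
    (he : Function.Injective e) (i : Fin 3) (P : W.toAffine.Point) : wt W e i P ≠ 0 := by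
  rcases P with _ | ⟨x, y, h⟩
  · exact one_ne_zero
  · rw [wt_some]
    by_cases hx : x = e i
    · rw [if_pos hx]
      refine mul_ne_zero (sub_ne_zero.2 fun h1 => ?_) (sub_ne_zero.2 fun h1 => ?_)
      · have h2 := he h1
        revert h2
        fin_cases i <;> decide
      · have h2 := he h1
        revert h2
        fin_cases i <;> decide
    · rw [if_neg hx]
      exact sub_ne_zero.2 hx

theorem sq_div {K : Type} [Field K] {a b : K} (ha : IsSquare (a * (b * b))) (hb : b ≠ 0) :
    IsSquare a := by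
  obtain ⟨r, hr⟩ := ha
  refine ⟨r / b, ?_⟩
  rw [div_mul_div_comm, ← hr, mul_div_assoc, div_self (mul_ne_zero hb hb), mul_one]

theorem sq_cancel {K : Type} [Field K] {a b : K} (ha : IsSquare (a * b)) (hb : IsSquare b)
    (hb0 : b ≠ 0) : IsSquare a := by
  obtain ⟨r, hr⟩ := hb
  rw [hr] at ha hb0
  exact sq_div ha (left_ne_zero_of_mul hb0)

theorem wt_prod {K : Type} [Field K] [CharZero K] (W : WeierstrassCurve K) (e : Fin 3 → K)
    (hR : Roots W (e 0) (e 1) (e 2)) (P : W.toAffine.Point) :
    IsSquare (wt W e 0 P * wt W e 1 P * wt W e 2 P) := by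
  rcases P with _ | ⟨x, y, h⟩
  · change IsSquare ((1 : K) * 1 * 1)
    exact ⟨1, by ring⟩
  · have h12 : ((1 : Fin 3) + 1) = 2 := rfl
    have h13 : ((1 : Fin 3) + 2) = 0 := rfl
    have h22 : ((2 : Fin 3) + 1) = 0 := rfl
    have h23 : ((2 : Fin 3) + 2) = 1 := rfl
    rw [wt_some, wt_some, wt_some]
    by_cases h0 : x = e 0
    · by_cases h1 : x = e 1
      · have h01 : e 0 = e 1 := h0.symm.trans h1
        rw [if_pos h0, if_pos h1, h12, h13, zero_add, h01]
        exact ⟨0, by ring⟩
      · by_cases h2 : x = e 2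
        · have h02 : e 0 = e 2 := h0.symm.trans h2
          rw [if_pos h0, zero_add, zero_add, h02]
          exact ⟨0, by ring⟩
        · rw [if_pos h0, if_neg h1, if_neg h2, zero_add, zero_add, h0]
          exact ⟨(e 0 - e 1) * (e 0 - e 2), by ring⟩
    · by_cases h1 : x = e 1
      · by_cases h2 : x = e 2
        · have h12' : e 1 = e 2 := h1.symm.trans h2
          rw [if_pos h1, h12, h13, h12']
          exact ⟨0, by ring⟩
        · rw [if_neg h0, if_pos h1, if_neg h2, h12, h13, h1]
          exact ⟨(e 1 - e 2) * (e 1 - e 0), by ring⟩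
      · by_cases h2 : x = e 2
        · rw [if_neg h0, if_neg h1, if_pos h2, h22, h23, h2]
          exact ⟨(e 2 - e 0) * (e 2 - e 1), by ring⟩
        · rw [if_neg h0, if_neg h1, if_neg h2]
          refine ⟨(2 * y + W.a₁ * x + W.a₃) / 2, ?_⟩
          obtain ⟨r1, r2, r3⟩ := hR
          have he : y ^ 2 + W.a₁ * x * y + W.a₃ * y = x ^ 3 + W.a₂ * x ^ 2 + W.a₄ * x + W.a₆ :=
            (W.toAffine.equation_iff x y).1 h.1
          have h2' : (2 : K) ≠ 0 := two_ne_zero
          unfold WeierstrassCurve.b₂ at r1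
          unfold WeierstrassCurve.b₄ at r2
          unfold WeierstrassCurve.b₆ at r3
          field_simp
          linear_combination (-4) * he - x ^ 2 * r1 - 2 * x * r2 - r3

theorem f_bas : BasStmt := by
  intro K _ _ W e hR he
  refine ⟨?_, ?_, ?_, ?_⟩
  · intro i P
    refine ⟨wt W e i P, wt_ne W e he i P, ?_⟩
    rw [dl_iff]
    exact ⟨wt W e i P, rfl⟩
  · intro i c d P hc hd hP
    rw [dl_iff] at hP ⊢
    have hw := wt_ne W e he i P
    constructor
    · intro h
      have h1 : IsSquare (c * d * (wt W e i P * wt W e i P)) := by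
        have h2 : c * d * (wt W e i P * wt W e i P) = (c * wt W e i P) * (d * wt W e i P) := by
          ring
        rw [h2]
        exact hP.mul h
      exact sq_div h1 hw
    · intro h
      have h1 : IsSquare (d * wt W e i P * (c * c)) := by
        have h2 : d * wt W e i P * (c * c) = (c * wt W e i P) * (c * d) := by ring
        rw [h2]
        exact hP.mul h
      exact sq_div h1 hc
  · intro P c hc
    have h0 := (dl_iff W e 0 (c 0) P).1 (hc 0).2
    have h1 := (dl_iff W e 1 (c 1) P).1 (hc 1).2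
    have h2 := (dl_iff W e 2 (c 2) P).1 (hc 2).2
    have h3 : IsSquare (c 0 * c 1 * c 2 * (wt W e 0 P * wt W e 1 P * wt W e 2 P)) := by
      have h4 : c 0 * c 1 * c 2 * (wt W e 0 P * wt W e 1 P * wt W e 2 P) =
          (c 0 * wt W e 0 P) * (c 1 * wt W e 1 P) * (c 2 * wt W e 2 P) := by ring
      rw [h4]
      exact (h0.mul h1).mul h2
    exact sq_cancel h3 (wt_prod W e hR P)
      (mul_ne_zero (mul_ne_zero (wt_ne W e he 0 P) (wt_ne W e he 1 P)) (wt_ne W e he 2 P))
  · intro i c P hP
    rcases P with _ | ⟨x, y, h⟩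
    · exact hP
    · exact hP

end

end Pool.Agent.GT.F.H56
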